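import Mathlib

namespace Pool.Agent.Results.MP_37207a_lc.Exists

open Cardinal FirstOrder

/-- Every field ordering of `K` is archimedean. -/
def OnlyArch (K : Type) [Field K] : Prop :=
  ∀ (_ : LinearOrder K), IsStrictOrderedRing K → ∀ x : K, ∃ n : ℕ, x < n

/-- `D` is first-order definable, with parameters, in the language of rings. -/
def RingDefinable (K : Type) [Field K] (D : Set K) : Prop :=
  letI := Ring.compatibleRingOfRing K
  (Set.univ : Set K).Definable₁ Language.ring D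

lemma arch {K : Type} [Field K] (h : ∀ x : K, ∃ (n : ℕ) (s : K), s ≠ 0 ∧ n - x = s * s) :
    OnlyArch K := by
  intro o ho x
  obtain ⟨n, s, h1, h2⟩ := h x
  exact ⟨n, sub_pos.1 (h2 ▸ mul_self_pos.2 h1)⟩

lemma fam : ∃ α : {B : Set ℝ // MeasurableSet B} → ℝ, AlgebraicIndependent ℚ α := by
  obtain ⟨s, hs⟩ := exists_isTranscendenceBasis ℚ ℝ
  have h1 : #{B : Set ℝ // MeasurableSet B} ≤ 𝔠 := by
    have := MeasurableSpace.cardinal_measurableSet_le_continuum
      (s := TopologicalSpace.countableBasis ℝ)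
      ((TopologicalSpace.countable_countableBasis ℝ).le_aleph0.trans aleph0_le_continuum)
    rwa [← (TopologicalSpace.isBasis_countableBasis ℝ).borel_eq_generateFrom] at this
  have h2 : 𝔠 ≤ #s := by
    have a1 := hs.isAlgebraic
    have a2 := Algebra.IsAlgebraic.cardinalMk_le_max (Algebra.adjoin ℚ (Set.range ((↑) : s → ℝ))) ℝ
    have a3 := Algebra.cardinalMk_adjoin_le ℚ (Set.range ((↑) : s → ℝ))
    rw [mk_real] at a2
    rw [Subtype.range_coe, Cardinal.mkRat] at a3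
    rw [Subtype.range_coe] at a2
    by_contra h
    have := a2.trans (max_le_max_right _ a3)
    exact absurd this (not_le.2 (by simp [aleph0_lt_continuum, not_le.1 h]))
  obtain ⟨e⟩ := (Cardinal.le_def _ _).1 (h1.trans h2)
  exact ⟨_, hs.1.comp e e.injective⟩

open Polynomial IntermediateField in
lemma notmem {L : IntermediateField ℚ ℝ} {a : ℝ} (h : Transcendental L a) :
    a ∉ adjoin L {a ^ 3} := by
  rw [mem_adjoin_simple_iff]
  rintro ⟨r, s, e⟩
  have ha : a ≠ 0 := fun h0 => h (h0 ▸ isAlgebraic_zero)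
  have hs : aeval (a ^ 3) s ≠ 0 := fun h0 => ha (by rw [e, h0, div_zero])
  have hs0 : s ≠ 0 := fun h0 => hs (by simp [h0])
  rw [eq_div_iff hs] at e
  have e2 : X * expand L 3 s = expand L 3 r := by
    apply (transcendental_iff_injective.1 h)
    simpa [expand_aeval] using e
  have e3 := congrArg natDegree e2
  rw [natDegree_X_mul ((expand_ne_zero (by norm_num)).2 hs0), natDegree_expand,
    natDegree_expand] at e3
  omega

def ext (K : Subfield ℝ) (s : ℝ) (hs : s * s ∈ K) (hn : s ∉ K) : Subfield ℝ where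
  carrier := {x | ∃ a ∈ K, ∃ b ∈ K, x = a + b * s}
  mul_mem' := by
    rintro _ _ ⟨a, ha, b, hb, rfl⟩ ⟨c, hc, d, hd, rfl⟩
    exact ⟨a * c + b * d * (s * s), add_mem (mul_mem ha hc) (mul_mem (mul_mem hb hd) hs),
      a * d + b * c, add_mem (mul_mem ha hd) (mul_mem hb hc), by ring⟩
  one_mem' := ⟨1, one_mem _, 0, zero_mem _, by ring⟩
  add_mem' := by
    rintro _ _ ⟨a, ha, b, hb, rfl⟩ ⟨c, hc, d, hd, rfl⟩
    exact ⟨a + c, add_mem ha hc, b + d, add_mem hb hd, by ring⟩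
  zero_mem' := ⟨0, zero_mem _, 0, zero_mem _, by ring⟩
  neg_mem' := by
    rintro _ ⟨a, ha, b, hb, rfl⟩
    exact ⟨-a, neg_mem ha, -b, neg_mem hb, by ring⟩
  inv_mem' := by
    rintro _ ⟨a, ha, b, hb, rfl⟩
    by_cases hb0 : b = 0
    · exact ⟨a⁻¹, inv_mem ha, 0, zero_mem _, by simp [hb0]⟩
    have h1 : a - b * s ≠ 0 := fun h => hn (by
      have : s = a / b := by field_simp; linarith
      exact this ▸ div_mem ha hb)
    have h2 : a + b * s ≠ 0 := fun h => hn (by
      have : s = -a / b := by field_simp; linarith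
      exact this ▸ div_mem (neg_mem ha) hb)
    have hN : a * a - b * b * (s * s) ∈ K := sub_mem (mul_mem ha ha) (mul_mem (mul_mem hb hb) hs)
    refine ⟨a / (a * a - b * b * (s * s)), div_mem ha hN, -b / (a * a - b * b * (s * s)),
      div_mem (neg_mem hb) hN, ?_⟩
    rw [show a * a - b * b * (s * s) = (a + b * s) * (a - b * s) by ring]
    field_simp
    ring

theorem result : ∃ K : Subfield ℝ, OnlyArch K ∧
    ∃ D : Set K, RingDefinable K D ∧ ¬ @MeasurableSet K (borel K) D := by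
  classical
  obtain ⟨α, hα⟩ := fam
  let P : Subfield ℝ → Prop := fun K =>
    ∀ B, (α B ^ 3 ∈ B.1 → α B ^ 3 ∈ K ∧ α B ∉ K) ∧ (α B ^ 3 ∉ B.1 → α B ∈ K)
  obtain ⟨γ, g1, g2⟩ : ∃ γ : {B : Set ℝ // MeasurableSet B} → ℝ,
      (∀ B, α B ^ 3 ∈ B.1 → γ B = α B ^ 3) ∧ ∀ B, α B ^ 3 ∉ B.1 → γ B = α B :=
    ⟨fun B => if α B ^ 3 ∈ B.1 then α B ^ 3 else α B, fun B h => if_pos h, fun B h => if_neg h⟩
  have h0 : P (Subfield.closure (Set.range γ)) := by
    intro B
    have m : γ B ∈ Subfield.closure (Set.range γ) := Subfield.subset_closure ⟨B, rfl⟩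
    refine ⟨fun h => ⟨g1 B h ▸ m, fun h' => ?_⟩, fun h => g2 B h ▸ m⟩
    have t := IntermediateField.transcendental_adjoin_iff.2
      (hα.transcendental_adjoin (s := {B}ᶜ) (i := B) (by simp))
    refine notmem t ((Subfield.closure_le (t := (IntermediateField.adjoin _ {α B ^ 3}).toSubfield)).2
      ?_ h')
    rintro _ ⟨C, rfl⟩
    by_cases e : C = B
    · subst e
      rw [g1 C h]
      exact IntermediateField.mem_adjoin_simple_self _ (α C ^ 3)
    · have m1 : α C ∈ IntermediateField.adjoin ℚ (α '' {B}ᶜ) :=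
        IntermediateField.subset_adjoin _ _ ⟨C, e, rfl⟩
      have m2 : α C ∈ IntermediateField.adjoin (IntermediateField.adjoin ℚ (α '' {B}ᶜ)) {α B ^ 3} :=
        IntermediateField.algebraMap_mem _ (⟨α C, m1⟩ : IntermediateField.adjoin ℚ (α '' {B}ᶜ))
      by_cases h3 : α C ^ 3 ∈ C.1
      · rw [g1 C h3]; exact pow_mem m2 3
      · rw [g2 C h3]; exact m2
  obtain ⟨K, -, hK⟩ := zorn_le_nonempty₀ {K | P K} (by
    intro c hc hch y hy
    refine ⟨sSup c, fun B => ⟨fun h => ⟨le_sSup hy ((hc hy B).1 h).1, fun h' => ?_⟩,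
      fun h => le_sSup hy ((hc hy B).2 h)⟩, fun z hz => le_sSup hz⟩
    obtain ⟨z, hz, h''⟩ := (Subfield.mem_sSup_of_directedOn ⟨y, hy⟩ hch.directedOn).1 h'
    exact ((hc hz B).1 h).2 h'') _ h0
  have sq : ∀ s : ℝ, s * s ∈ K → s ∈ K := by
    intro s hs
    by_contra hn
    have le : K ≤ ext K s hs hn := fun x hx => ⟨x, hx, 0, zero_mem _, by ring⟩
    refine hn (hK.2 (y := ext K s hs hn) (fun B => ⟨fun h => ⟨le ((hK.1 B).1 h).1, ?_⟩,
      fun h => le ((hK.1 B).2 h)⟩) le ⟨0, zero_mem _, 1, one_mem _, by ring⟩)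
    rintro ⟨a, ha, b, hb, e⟩
    obtain ⟨h1, h2⟩ := (hK.1 B).1 h
    have hb0 : b ≠ 0 := fun h0 => h2 (by rw [e, h0]; simpa using ha)
    have hs0 : s ≠ 0 := fun h0 => hn (h0 ▸ zero_mem _)
    have hp : b * (3 * (a * a) + b * b * (s * s)) ≠ 0 := mul_ne_zero hb0 (by
      have := mul_self_pos.2 (mul_ne_zero hb0 hs0)
      nlinarith [mul_self_nonneg a])
    have : s = (α B ^ 3 - a * (a * a + 3 * (b * b * (s * s)))) /
        (b * (3 * (a * a) + b * b * (s * s))) := by
      rw [eq_div_iff hp, e]; ring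
    have h3 : (3 : ℝ) ∈ K := ofNat_mem K 3
    have h4 := mul_mem (mul_mem hb hb) hs
    have h5 := mul_mem ha ha
    exact hn (this ▸ div_mem (sub_mem h1 (mul_mem ha (add_mem h5 (mul_mem h3 h4))))
      (mul_mem hb (add_mem (mul_mem h3 h5) h4)))
  refine ⟨K, arch ?_, {x | ∃ y, y * y * y = x}, ?_, ?_⟩
  · intro x
    obtain ⟨n, hn⟩ := exists_nat_gt (x : ℝ)
    have hp : (0 : ℝ) < n - x := sub_pos.2 hn
    have m := sq (Real.sqrt (n - x)) (by
      rw [Real.mul_self_sqrt hp.le]; exact sub_mem (natCast_mem K n) x.2)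
    have e : (n : K) - x = ⟨_, m⟩ * ⟨_, m⟩ := Subtype.ext (by simp [Real.mul_self_sqrt hp.le])
    have ne : (⟨_, m⟩ : K) ≠ 0 := fun h => (Real.sqrt_pos.2 hp).ne' (congrArg Subtype.val h)
    exact ⟨n, _, ne, e⟩
  · letI := Ring.compatibleRingOfRing K
    refine Set.Definable.mono (A := ∅) ?_ (Set.empty_subset _)
    rw [Set.empty_definable_iff]
    refine ⟨∃' ((&0 * &0 * &0) =' (Language.var (Sum.inl 0))), ?_⟩
    ext x
    simp [Language.Formula.Realize, Fin.snoc]
  · intro h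
    have hb : borel K = (borel ℝ).comap Subtype.val := borel_comap
    rw [hb] at h
    obtain ⟨B, hB, e⟩ := h
    by_cases h : α ⟨B, hB⟩ ^ 3 ∈ B
    · obtain ⟨h1, h2⟩ := (hK.1 ⟨B, hB⟩).1 h
      have : (⟨_, h1⟩ : K) ∈ (Subtype.val ⁻¹' B : Set K) := h
      rw [e] at this
      obtain ⟨y, hy⟩ := this
      have e2 : (y : ℝ) ^ 3 = α ⟨B, hB⟩ ^ 3 := by
        have := congrArg Subtype.val hy
        simpa [pow_succ] using this
      exact h2 ((Odd.strictMono_pow (by decide : Odd 3)).injective e2 ▸ y.2)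
    · have h1 := (hK.1 ⟨B, hB⟩).2 h
      have : (⟨_, h1⟩ * ⟨_, h1⟩ * ⟨_, h1⟩ : K) ∈ (Subtype.val ⁻¹' B : Set K) := by
        rw [e]; exact ⟨_, rfl⟩
      exact h (by simpa [pow_succ] using this)

end Pool.Agent.Results.MP_37207a_lc.Exists
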